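import Pool.Agent.Q34.VWe

/-!
`∑_{k ≤ N} (2 N k - 1) ((-1/N)_k / k!)^(2 N) ≡ 0 (mod p^(2 r + 3))`, `N = p^r - 1`, for every prime `p > 3` and
every `r ≥ 1`.
-/

set_option autoImplicit false

namespace Pool.Agent.Results.MP_7fc841_nt.Full

open Finset

/-- the rising factorial `(a)_k = a (a + 1) ⋯ (a + k - 1)` -/
def rf (a : ℚ) (k : ℕ) : ℚ := ∏ i ∈ range k, (a + i)

/-- `x ≡ 0 (mod p^m)`: `x = p^m u / w` with integers `u`, `w` and `p ∤ w` -/
def Zero (p m : ℕ) (x : ℚ) : Prop := ∃ u w : ℤ, ¬ (p : ℤ) ∣ w ∧ x = (p : ℚ) ^ m * (u / w)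

/-- the sum of the problem -/
def S (N : ℕ) : ℚ := ∑ k ∈ range (N + 1), (2 * (N : ℚ) * k - 1) * (rf (-1 / N) k / (k.factorial : ℚ)) ^ (2 * N)

open Pool.Agent.Q34.VW

theorem ratio {d : ℚ} (k : ℕ) : rf (1 - 2 * d) k / (k.factorial : ℚ) =
    ∏ j ∈ range k, (((j : ℚ) + 1 - 2 * d) / ((j : ℚ) + 1)) := by
  unfold rf
  rw [← prod_range_add_one_eq_factorial]
  push_cast
  rw [← prod_div_distrib]
  exact prod_congr rfl fun j _ => by congr 1; ring

theorem main {p r : ℕ} (hp : p.Prime) (h3 : 3 < p) (hr : 1 ≤ r) : Zero p (2 * r + 3) (S (p ^ r - 1)) := by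
  haveI : Fact p.Prime := ⟨hp⟩
  obtain ⟨s, rfl⟩ : ∃ s, r = s + 1 := ⟨r - 1, by omega⟩
  have hpp : p ^ 1 ≤ p ^ (s + 1) := Nat.pow_le_pow_right hp.pos (by omega)
  rw [pow_one] at hpp
  obtain ⟨M, hM⟩ : ∃ M, M = p ^ (s + 1) - 1 := ⟨_, rfl⟩
  rw [← hM]
  have hM1 : M + 1 = p ^ (s + 1) := by omega
  have C : Ctx p s M M 0 :=
    { h3 := h3
      hn := hM1
      hM := by rw [hM]; exact not_dvd_pred (by omega)
      hM2 := by omega
      hv := by omega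
      hv1 := by
        rw [pow_zero]
        have : ((M : ℚ) - 1) = (((M : ℤ) - 1 : ℤ) : ℚ) := by push_cast; ring
        rw [this]
        exact padicNorm.of_int _ }
  have hM0 := C.M0
  have hd : 1 - 2 * dd p s M = -1 / (M : ℚ) := by
    have h1 : (p : ℚ) ^ (s + 1) = (M : ℚ) + 1 := by exact_mod_cast hM1.symm
    unfold dd
    rw [h1]
    field_simp
    ring
  have h := exists_of_N C.final
  have e : S M = (M : ℚ) * ∑ k ∈ range (M + 1), (1 - 2 * dd p s M + 2 * k) *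
      (∏ j ∈ range k, (((j : ℚ) + 1 - 2 * dd p s M) / ((j : ℚ) + 1))) ^ (2 * M) := by
    unfold S
    rw [mul_sum]
    refine sum_congr rfl fun k _ => ?_
    rw [← hd, ratio, ← mul_assoc]
    congr 1
    rw [hd]
    field_simp
    ring
  obtain ⟨u, w, hw, hx⟩ := h
  refine ⟨M * u, w, hw, ?_⟩
  rw [e, hx]
  push_cast
  have : 2 * (s + 1) + 3 + 2 * 0 = 2 * (s + 1) + 3 := by ring
  rw [this]
  ring

/-- **Q1 and Q2, the answer is yes.** For every prime `p > 3`, `S_1 ≡ 0 (mod p^5)`; and for every `r ≥ 1`,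
`S_r ≡ 0 (mod p^(2 r + 3))`, where `S_r` is the sum with `N = p^r - 1`. -/
theorem result : (∀ p : ℕ, p.Prime → 3 < p → Zero p 5 (S (p - 1))) ∧
    ∀ p r : ℕ, p.Prime → 3 < p → 1 ≤ r → Zero p (2 * r + 3) (S (p ^ r - 1)) := by
  refine ⟨fun p hp h3 => ?_, fun p r hp h3 hr => main hp h3 hr⟩
  have := main (r := 1) hp h3 le_rfl
  rwa [pow_one] at this

end Pool.Agent.Results.MP_7fc841_nt.Full
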